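import Pool.Agent.W187.WQ.Stmts5

/-! WQ-N1_5: upper bound of `γ + log (4 π a) - log 2` for `a = 10059/12500` -/

set_option autoImplicit false

namespace Pool.Agent.W148.WQ
open Set Filter Pool.Agent.W187.WP Pool.Agent.W187.WQ
open scoped Topology

/-- the corrected harmonic sum -/
noncomputable def rr (n : ℕ) : ℝ :=
  (harmonic n : ℝ) - Real.log n - 1 / (2 * n) + 1 / (12 * n ^ 2) - 1 / (120 * n ^ 4)
    + 1 / (252 * n ^ 6)

theorem log_lower (x : ℝ) (hx : 0 < x) :
    2 / (2 * x + 1) + 2 / 3 / (2 * x + 1) ^ 3 + 2 / 5 / (2 * x + 1) ^ 5 + 2 / 7 / (2 * x + 1) ^ 7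
      ≤ Real.log (1 + x⁻¹) := by
  have h := Real.hasSum_log_one_add_inv hx
  have h2 := sum_le_hasSum (Finset.range 4) (fun k _ => by positivity) h
  refine le_trans (le_of_eq ?_) h2
  rw [Finset.sum_range_succ, Finset.sum_range_succ, Finset.sum_range_succ, Finset.sum_range_succ,
    Finset.sum_range_zero]
  norm_num
  have : 2 * x + 1 ≠ 0 := by positivity
  field_simp

theorem rat_ineq (x : ℝ) (hx : 0 < x) :
    1 / (2 * (x + 1)) + 1 / (2 * x) + 1 / (12 * (x + 1) ^ 2) - 1 / (12 * x ^ 2)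
      - 1 / (120 * (x + 1) ^ 4) + 1 / (120 * x ^ 4) + 1 / (252 * (x + 1) ^ 6) - 1 / (252 * x ^ 6)
      ≤ 2 / (2 * x + 1) + 2 / 3 / (2 * x + 1) ^ 3 + 2 / 5 / (2 * x + 1) ^ 5
        + 2 / 7 / (2 * x + 1) ^ 7 := by
  have e : 2 / (2 * x + 1) + 2 / 3 / (2 * x + 1) ^ 3 + 2 / 5 / (2 * x + 1) ^ 5
        + 2 / 7 / (2 * x + 1) ^ 7
      - (1 / (2 * (x + 1)) + 1 / (2 * x) + 1 / (12 * (x + 1) ^ 2) - 1 / (12 * x ^ 2)
      - 1 / (120 * (x + 1) ^ 4) + 1 / (120 * x ^ 4) + 1 / (252 * (x + 1) ^ 6)
      - 1 / (252 * x ^ 6))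
      = (10 + 200 * x + 1809 * x ^ 2 + 9720 * x ^ 3 + 34317 * x ^ 4 + 82926 * x ^ 5
        + 138774 * x ^ 6 + 158928 * x ^ 7 + 119322 * x ^ 8 + 53060 * x ^ 9 + 10612 * x ^ 10)
        / (2520 * (2 * x + 1) ^ 7 * x ^ 6 * (x + 1) ^ 6) := by
    have h1 : 2 * x + 1 ≠ 0 := by positivity
    have h2 : x + 1 ≠ 0 := by positivity
    field_simp
    ring
  have : 0 ≤ (10 + 200 * x + 1809 * x ^ 2 + 9720 * x ^ 3 + 34317 * x ^ 4 + 82926 * x ^ 5
        + 138774 * x ^ 6 + 158928 * x ^ 7 + 119322 * x ^ 8 + 53060 * x ^ 9 + 10612 * x ^ 10)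
        / (2520 * (2 * x + 1) ^ 7 * x ^ 6 * (x + 1) ^ 6) := by positivity
  linarith

theorem rr_succ (n : ℕ) (hn : 1 ≤ n) : rr (n + 1) ≤ rr n := by
  have hx : (0 : ℝ) < n := by exact_mod_cast hn
  have h1 := log_lower n hx
  have h2 := rat_ineq n hx
  have h3 : Real.log (1 + (n : ℝ)⁻¹) = Real.log ((n : ℝ) + 1) - Real.log n := by
    rw [← Real.log_div (by positivity) (by positivity)]
    congr 1
    field_simp
  have h4 : (harmonic (n + 1) : ℝ) = harmonic n + 1 / ((n : ℝ) + 1) := by
    rw [harmonic_succ]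
    push_cast
    rw [one_div]
  unfold rr
  rw [h4]
  push_cast
  rw [h3] at h1
  have h5 : 1 / ((n : ℝ) + 1) = 1 / (2 * ((n : ℝ) + 1)) + 1 / (2 * ((n : ℝ) + 1)) := by
    field_simp
    norm_num
  rw [h5]
  linarith

theorem rr_anti {m n : ℕ} (hm : 1 ≤ m) (hmn : m ≤ n) : rr n ≤ rr m := by
  induction n, hmn using Nat.le_induction with
  | base => exact le_rfl
  | succ n hmn ih => exact (rr_succ n (hm.trans hmn)).trans ih

theorem rr_tendsto : Tendsto rr atTop (𝓝 Real.eulerMascheroniConstant) := by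
  have h1 := Real.tendsto_eulerMascheroniSeq'
  have h0 := (tendsto_one_div_atTop_nhds_zero_nat (𝕜 := ℝ))
  have h2 : Tendsto (fun n : ℕ => 1 / (2 * (n : ℝ))) atTop (𝓝 0) := by
    have := h0.const_mul (1 / 2)
    rw [mul_zero] at this
    refine this.congr fun n => ?_
    ring
  have h3 : Tendsto (fun n : ℕ => 1 / (12 * (n : ℝ) ^ 2)) atTop (𝓝 0) := by
    have := (h0.pow 2).const_mul (1 / 12)
    rw [zero_pow (by norm_num), mul_zero] at this
    refine this.congr fun n => ?_
    ring
  have h5 : Tendsto (fun n : ℕ => 1 / (120 * (n : ℝ) ^ 4)) atTop (𝓝 0) := by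
    have := (h0.pow 4).const_mul (1 / 120)
    rw [zero_pow (by norm_num), mul_zero] at this
    refine this.congr fun n => ?_
    ring
  have h6 : Tendsto (fun n : ℕ => 1 / (252 * (n : ℝ) ^ 6)) atTop (𝓝 0) := by
    have := (h0.pow 6).const_mul (1 / 252)
    rw [zero_pow (by norm_num), mul_zero] at this
    refine this.congr fun n => ?_
    ring
  have h4 := (((h1.sub h2).add h3).sub h5).add h6
  rw [sub_zero, add_zero, sub_zero, add_zero] at h4
  refine h4.congr' ?_
  filter_upwards [eventually_ge_atTop 1] with n hn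
  unfold rr Real.eulerMascheroniSeq'
  rw [if_neg (by omega)]

/-- lower bound of `log 2` -/
theorem log2_lower : ∑ k ∈ Finset.range 26, (2 : ℝ) / ((2 * k + 1) * 3 ^ (2 * k + 1))
    ≤ Real.log 2 := by
  have h := Real.hasSum_log_one_add_inv (show (0 : ℝ) < 1 by norm_num)
  have h2 := sum_le_hasSum (Finset.range 26) (fun k _ => by positivity) h
  have h3 : (1 : ℝ) + (1 : ℝ)⁻¹ = 2 := by norm_num
  rw [h3] at h2
  refine le_trans (le_of_eq ?_) h2
  refine Finset.sum_congr rfl fun k _ => ?_
  have h4 : (2 : ℝ) * 1 + 1 = 3 := by norm_num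
  rw [h4, one_div_pow]
  field_simp

theorem harmQ : harmonic 324 ≤ (635950159673892063485082632 / 10 ^ 26 : ℚ) := by
  decide +kernel

theorem harm : (harmonic 324 : ℝ) ≤ 635950159673892063485082632 / 10 ^ 26 := by
  have h : ((harmonic 324 : ℚ) : ℝ) ≤ ((635950159673892063485082632 / 10 ^ 26 : ℚ) : ℝ) :=
    Rat.cast_le.2 harmQ
  refine h.trans (le_of_eq ?_)
  push_cast
  rfl

theorem log2_lower' : 693147180559945309417232119 / 10 ^ 27 ≤ Real.log 2 := by
  refine le_trans ?_ log2_lower
  norm_num [Finset.sum_range_succ]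

/-- `64 q / 324` where `q = 2 * 3.14159265358979323847 * a` -/
theorem logrho : Real.log (1053376016748657672858991 / 1054687500000000000000000)
    ≤ -1244254179366304570029 / 10 ^ 24 + 1 / 10 ^ 23 := by
  have t : |(1311483251342327141009 / 1054687500000000000000000 : ℝ)|
      = 1311483251342327141009 / 1054687500000000000000000 := abs_of_pos (by norm_num)
  have z := Real.abs_log_sub_add_sum_range_le
    (show |(1311483251342327141009 / 1054687500000000000000000 : ℝ)| < 1 by rw [t]; norm_num) 7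
  rw [t] at z
  have e1 : (1 : ℝ) - 1311483251342327141009 / 1054687500000000000000000
      = 1053376016748657672858991 / 1054687500000000000000000 := by norm_num
  rw [e1] at z
  have z1 := (abs_le.1 z).2
  have z2 : -(∑ i ∈ Finset.range 7,
      (1311483251342327141009 / 1054687500000000000000000 : ℝ) ^ (i + 1) / (i + 1))
      + (1311483251342327141009 / 1054687500000000000000000 : ℝ) ^ (7 + 1) /
        (1053376016748657672858991 / 1054687500000000000000000)
      ≤ -1244254179366304570029 / 10 ^ 24 + 1 / 10 ^ 23 := by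
    norm_num [Finset.sum_range_succ]
  linarith

theorem n1_5 : S_N1_5 := by
  unfold S_N1_5
  have h1 : Real.eulerMascheroniConstant ≤ rr 324 :=
    le_of_tendsto rr_tendsto ((eventually_ge_atTop 324).mono fun n hn => rr_anti (by norm_num) hn)
  have h2 := harm
  have h3 := log2_lower'
  have h4 := logrho
  have hpi : Real.pi < 3.14159265358979323847 := Real.pi_lt_d20
  have hpi0 := Real.pi_pos
  have e1 : Real.log (4 * Real.pi * (10059 / 12500)) - Real.log 2
      = Real.log (2 * Real.pi * (10059 / 12500)) := by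
    rw [← Real.log_div (by positivity) (by norm_num)]
    congr 1
    ring
  have e2 : Real.log (2 * Real.pi * (10059 / 12500))
      ≤ Real.log (324 * (1053376016748657672858991 / 1054687500000000000000000) / 2 ^ 6) := by
    apply Real.log_le_log (by positivity)
    norm_num at hpi ⊢
    linarith
  have e3 : Real.log (324 * (1053376016748657672858991 / 1054687500000000000000000) / 2 ^ 6)
      = Real.log 324 + Real.log (1053376016748657672858991 / 1054687500000000000000000)
        - 6 * Real.log 2 := by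
    rw [Real.log_div (by norm_num) (by norm_num), Real.log_mul (by norm_num) (by norm_num),
      Real.log_pow]
    norm_num
  have e4 : ((p5.c2 : ℚ) : ℝ) = 10989159215774120419781 / 5000000000000000000000 := by
    have : p5.c2 = 10989159215774120419781 / 5000000000000000000000 := rfl
    rw [this]
    push_cast
    rfl
  rw [add_sub_assoc, e1, e4]
  have h5 : rr 324 = (harmonic 324 : ℝ) - Real.log 324 - 1 / (2 * 324) + 1 / (12 * 324 ^ 2)
      - 1 / (120 * 324 ^ 4) + 1 / (252 * 324 ^ 6) := by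
    simp only [rr, Nat.cast_ofNat]
  rw [h5] at h1
  rw [e3] at e2
  generalize (harmonic 324 : ℝ) = A at h1 h2
  generalize Real.log 324 = B at h1 e2
  generalize Real.log (1053376016748657672858991 / 1054687500000000000000000) = D at h4 e2
  generalize Real.log 2 = l2 at h3 e2
  generalize Real.log (2 * Real.pi * (10059 / 12500)) = T at e2 ⊢
  norm_num at h1 h2 h3 h4 e2 ⊢
  linarith

end Pool.Agent.W148.WQ
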